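import Mathlib

/-!
# The matrix of a twist is singular iff there is a divisor with local conditions
-/

set_option autoImplicit false

namespace Pool.Agent.T9h77.QT

/-- `D` is squarefree and all its prime factors are `≡ 1 mod 4`. -/
def Adm (D : ℕ) : Prop := Squarefree D ∧ ∀ p ∈ D.primeFactors, p % 4 = 1

open Classical in
/-- The prime factors of `D` which split in `ℚ(√-7)`. -/
noncomputable def split (D : ℕ) : Finset ℕ := D.primeFactors.filter fun p => IsSquare (-7 : ZMod p)

open Classical in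
/-- `1` if `m` is not a square modulo `p`, and `0` if it is -/
noncomputable def nonsq (p m : ℕ) : ZMod 2 := if IsSquare (m : ZMod p) then 0 else 1

open Classical in
/-- `1` if `-7` is not a fourth power modulo `p`, and `0` if it is -/
noncomputable def nonfourth (p : ℕ) : ZMod 2 := if ∃ y : ZMod p, y ^ 4 = -7 then 0 else 1

/-- the matrix -/
noncomputable def mat (D : ℕ) : Matrix (split D) (split D) (ZMod 2) := Matrix.of fun i j =>
  if i = j then nonfourth i + ∑ l ∈ D.primeFactors.erase i, nonsq i l else nonsq i j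

theorem z2_sq : ∀ x : ZMod 2, x = x * x := by decide

theorem nonsq_mul {p a b : ℕ} (hp : p.Prime) (ha : ¬ p ∣ a) (hb : ¬ p ∣ b) :
    nonsq p (a * b) = nonsq p a + nonsq p b := by
  have : Fact p.Prime := ⟨hp⟩
  classical
  have ha' : (a : ZMod p) ≠ 0 := by rwa [Ne, ZMod.natCast_eq_zero_iff]
  have hb' : (b : ZMod p) ≠ 0 := by rwa [Ne, ZMod.natCast_eq_zero_iff]
  by_cases h2 : p = 2
  · subst h2
    have k : ∀ x : ZMod 2, IsSquare x := fun x => ⟨x, z2_sq x⟩
    unfold nonsq
    rw [if_pos (k _), if_pos (k _), if_pos (k _), add_zero]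
  have hr : ringChar (ZMod p) ≠ 2 := by rwa [ZMod.ringChar_zmod_n]
  have key : ∀ x : ZMod p, x ≠ 0 → (¬ IsSquare x ↔ quadraticChar (ZMod p) x = -1) := fun x hx =>
    (quadraticChar_neg_one_iff_not_isSquare).symm
  have key1 : ∀ x : ZMod p, x ≠ 0 → (IsSquare x ↔ quadraticChar (ZMod p) x = 1) := fun x hx =>
    (quadraticChar_one_iff_isSquare hx).symm
  have hm : quadraticChar (ZMod p) ((a : ZMod p) * b) =
      quadraticChar (ZMod p) a * quadraticChar (ZMod p) b := map_mul _ _ _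
  unfold nonsq
  push_cast
  by_cases h1 : IsSquare (a : ZMod p) <;> by_cases h2 : IsSquare (b : ZMod p)
  · have : IsSquare ((a : ZMod p) * b) := h1.mul h2
    rw [if_pos h1, if_pos h2, if_pos this, add_zero]
  · have : ¬ IsSquare ((a : ZMod p) * b) := by
      rw [key _ (mul_ne_zero ha' hb'), hm, (key1 _ ha').1 h1, (key _ hb').1 h2]
      norm_num
    rw [if_pos h1, if_neg h2, if_neg this, zero_add]
  · have : ¬ IsSquare ((a : ZMod p) * b) := by
      rw [key _ (mul_ne_zero ha' hb'), hm, (key _ ha').1 h1, (key1 _ hb').1 h2]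
      norm_num
    rw [if_neg h1, if_pos h2, if_neg this, add_zero]
  · have : IsSquare ((a : ZMod p) * b) := by
      rw [key1 _ (mul_ne_zero ha' hb'), hm, (key _ ha').1 h1, (key _ hb').1 h2]
      norm_num
    rw [if_neg h1, if_neg h2, if_pos this]
    decide

theorem nonsq_one (p : ℕ) : nonsq p 1 = 0 := by
  unfold nonsq
  rw [Nat.cast_one, if_pos (IsSquare.one)]

theorem nonsq_prod {p : ℕ} (hp : p.Prime) (S : Finset ℕ) (hS : ∀ a ∈ S, ¬ p ∣ a) :
    ¬ p ∣ ∏ a ∈ S, a ∧ nonsq p (∏ a ∈ S, a) = ∑ a ∈ S, nonsq p a := by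
  classical
  induction S using Finset.induction_on with
  | empty =>
    simp only [Finset.prod_empty, Finset.sum_empty, nonsq_one, and_true]
    exact fun h => hp.one_lt.ne' (Nat.dvd_one.1 h)
  | insert a S ha ih =>
    obtain ⟨h1, h2⟩ := ih fun b hb => hS b (Finset.mem_insert_of_mem hb)
    have h3 := hS a (Finset.mem_insert_self a S)
    rw [Finset.prod_insert ha, Finset.sum_insert ha, nonsq_mul hp h3 h1, h2]
    exact ⟨fun h => ((Nat.Prime.dvd_mul hp).1 h).elim h3 h1, rfl⟩

/-- the conditions for `S` -/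
def KerS (D : ℕ) (S : Finset ℕ) : Prop :=
  ∀ i ∈ split D, (i ∉ S → nonsq i (∏ a ∈ S, a) = 0) ∧
    (i ∈ S → nonfourth i = nonsq i (∏ a ∈ D.primeFactors \ S, a))

theorem two_self (a : ZMod 2) : a + a = 0 := by
  revert a
  decide

theorem eq_of_add {a b : ZMod 2} : a + b = 0 ↔ a = b := by
  revert a b
  decide

theorem not_dvd_of_ne {D p q : ℕ} (hp : p ∈ D.primeFactors) (hq : q ∈ D.primeFactors)
    (h : q ≠ p) : ¬ p ∣ q := by
  intro hd
  have h1 := Nat.prime_of_mem_primeFactors hp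
  have h2 := Nat.prime_of_mem_primeFactors hq
  exact h ((Nat.prime_dvd_prime_iff_eq h1 h2).1 hd).symm

theorem split_sub (D : ℕ) : split D ⊆ D.primeFactors := by
  classical
  exact Finset.filter_subset _ _

theorem row (D : ℕ) (v : split D → ZMod 2) (S : Finset ℕ) (hS : S ⊆ split D)
    (hv : ∀ i : split D, v i = if (i : ℕ) ∈ S then 1 else 0) (i : split D) :
    (mat D).mulVec v i = 0 ↔ ((i : ℕ) ∉ S → nonsq i (∏ a ∈ S, a) = 0) ∧
    ((i : ℕ) ∈ S → nonfourth i = nonsq i (∏ a ∈ D.primeFactors \ S, a)) := by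
  classical
  have hi := split_sub D i.2
  have hip := Nat.prime_of_mem_primeFactors hi
  have e0 : (mat D).mulVec v i = ∑ j : split D, if (j : ℕ) ∈ S then mat D i j else 0 := by
    unfold Matrix.mulVec dotProduct
    refine Finset.sum_congr rfl fun j _ => ?_
    rw [hv j, mul_ite, mul_one, mul_zero]
  have e1 : (mat D).mulVec v i = ∑ j ∈ S, if (i : ℕ) = j then
      nonfourth i + ∑ l ∈ D.primeFactors.erase i, nonsq i l else nonsq i j := by
    rw [e0]
    have e2 : (∑ j : split D, if (j : ℕ) ∈ S then mat D i j else 0) =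
        ∑ j ∈ split D, if j ∈ S then (if (i : ℕ) = j then
          nonfourth i + ∑ l ∈ D.primeFactors.erase i, nonsq i l else nonsq i j) else 0 := by
      rw [← Finset.sum_coe_sort (split D)]
      refine Finset.sum_congr rfl fun j _ => ?_
      by_cases hj : (j : ℕ) ∈ S
      · rw [if_pos hj, if_pos hj]
        unfold mat
        rw [Matrix.of_apply]
        by_cases hij : i = j
        · rw [if_pos hij, if_pos (congrArg Subtype.val hij)]
        · rw [if_neg hij, if_neg (fun h => hij (Subtype.ext h))]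
      · rw [if_neg hj, if_neg hj]
    rw [e2, ← Finset.sum_filter]
    refine Finset.sum_congr ?_ fun _ _ => rfl
    ext j
    rw [Finset.mem_filter]
    exact ⟨fun h => h.2, fun h => ⟨hS h, h⟩⟩
  rw [e1]
  by_cases hiS : (i : ℕ) ∈ S
  · have e3 : (∑ j ∈ S, if (i : ℕ) = j then
        nonfourth i + ∑ l ∈ D.primeFactors.erase i, nonsq i l else nonsq i j) =
        nonfourth i + ∑ a ∈ D.primeFactors \ S, nonsq i a := by
      rw [← Finset.add_sum_erase _ _ hiS, if_pos rfl]
      have e4 : (∑ j ∈ S.erase i, if (i : ℕ) = j then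
          nonfourth i + ∑ l ∈ D.primeFactors.erase i, nonsq i l else nonsq i j) =
          ∑ j ∈ S.erase i, nonsq i j := by
        refine Finset.sum_congr rfl fun j hj => ?_
        rw [if_neg (Finset.ne_of_mem_erase hj).symm]
      have e5 : D.primeFactors.erase i = S.erase i ∪ (D.primeFactors \ S) := by
        ext j
        simp only [Finset.mem_erase, Finset.mem_union, Finset.mem_sdiff]
        constructor
        · rintro ⟨h1, h2⟩
          by_cases h3 : j ∈ S
          · exact Or.inl ⟨h1, h3⟩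
          · exact Or.inr ⟨h2, h3⟩
        · rintro (⟨h1, h2⟩ | ⟨h1, h2⟩)
          · exact ⟨h1, split_sub D (hS h2)⟩
          · exact ⟨fun h => h2 (h ▸ hiS), h1⟩
      have e6 : Disjoint (S.erase i) (D.primeFactors \ S) :=
        Finset.disjoint_of_subset_left (Finset.erase_subset _ _) Finset.disjoint_sdiff
      rw [e4, e5, Finset.sum_union e6]
      have := two_self (∑ j ∈ S.erase (i : ℕ), nonsq i j)
      linear_combination this
    rw [e3, eq_of_add]
    have h7 := (nonsq_prod hip (D.primeFactors \ S) (fun a ha => not_dvd_of_ne hi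
      (Finset.mem_sdiff.1 ha).1 (fun h => (Finset.mem_sdiff.1 ha).2 (by rw [h]; exact hiS)))).2
    rw [← h7]
    exact ⟨fun h => ⟨fun h1 => absurd hiS h1, fun _ => h⟩, fun h => h.2 hiS⟩
  · have e3 : (∑ j ∈ S, if (i : ℕ) = j then
        nonfourth i + ∑ l ∈ D.primeFactors.erase i, nonsq i l else nonsq i j) =
        ∑ a ∈ S, nonsq i a := by
      refine Finset.sum_congr rfl fun j hj => ?_
      rw [if_neg (fun h => hiS (by rw [h]; exact hj))]
    rw [e3]
    have h7 := (nonsq_prod hip S (fun a ha => not_dvd_of_ne hi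
      (split_sub D (hS ha)) (fun h => hiS (by rw [← h]; exact ha)))).2
    rw [← h7]
    exact ⟨fun h => ⟨fun _ => h, fun h1 => absurd h1 hiS⟩, fun h => h.1 hiS⟩

theorem det_zero_iff (D : ℕ) :
    (mat D).det = 0 ↔ ∃ S ⊆ split D, S.Nonempty ∧ KerS D S := by
  classical
  rw [← Matrix.exists_mulVec_eq_zero_iff]
  constructor
  · rintro ⟨v, hv0, hv⟩
    set S : Finset ℕ := (split D).filter fun p => ∃ h : p ∈ split D, v ⟨p, h⟩ = 1 with hS
    have h1 : ∀ i : split D, v i = if (i : ℕ) ∈ S then 1 else 0 := by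
      intro i
      by_cases h : v i = 1
      · rw [if_pos (Finset.mem_filter.2 ⟨i.2, i.2, h⟩)]
        exact h
      · rw [if_neg (fun h' => h (Finset.mem_filter.1 h').2.2)]
        have : ∀ a : ZMod 2, a ≠ 1 → a = 0 := by decide
        exact this _ h
    refine ⟨S, Finset.filter_subset _ _, ?_, fun i hi => ?_⟩
    · by_contra hn
      rw [Finset.not_nonempty_iff_eq_empty] at hn
      apply hv0
      funext i
      rw [h1 i, hn, if_neg (Finset.notMem_empty _)]
      rfl
    · exact (row D v S (Finset.filter_subset _ _) h1 ⟨i, hi⟩).1 (congrFun hv _)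
  · rintro ⟨S, hS, ⟨p, hp⟩, hK⟩
    refine ⟨fun i => if (i : ℕ) ∈ S then 1 else 0, ?_, ?_⟩
    · intro h
      have := congrFun h ⟨p, hS hp⟩
      simp only [hp, if_true, Pi.zero_apply] at this
      exact one_ne_zero this
    · funext i
      exact (row D _ S hS (fun _ => rfl) i).2 (hK i i.2)

/-! ### in terms of the divisor `d = ∏ S` -/

/-- `m` is a square modulo `p` -/
def Sq (p m : ℕ) : Prop := ∃ x < p, x * x % p = m % p

/-- `-7` is a square modulo `p` -/
def S7 (p : ℕ) : Prop := ∃ x < p, (x * x + 7) % p = 0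

/-- `-7` is a fourth power modulo `p` -/
def Q7 (p : ℕ) : Prop := ∃ x < p, (x * x * (x * x) + 7) % p = 0

theorem sq_iff {p m : ℕ} (hp : p.Prime) : Sq p m ↔ nonsq p m = 0 := by
  have : Fact p.Prime := ⟨hp⟩
  have : NeZero p := ⟨hp.ne_zero⟩
  have h1 : nonsq p m = 0 ↔ IsSquare (m : ZMod p) := by
    unfold nonsq
    split_ifs with h
    · exact ⟨fun _ => h, fun _ => rfl⟩
    · exact ⟨fun h' => absurd h' one_ne_zero, fun h' => absurd h' h⟩
  rw [h1]
  constructor
  · rintro ⟨x, -, hx⟩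
    refine ⟨(x : ZMod p), ?_⟩
    have := (ZMod.natCast_eq_natCast_iff' (x * x) m p).2 hx
    rw [← this]
    push_cast
    rfl
  · rintro ⟨y, hy⟩
    refine ⟨y.val, ZMod.val_lt y, ?_⟩
    rw [← ZMod.natCast_eq_natCast_iff' (y.val * y.val) m p]
    push_cast
    rw [ZMod.natCast_zmod_val, hy]

theorem s7_iff {p : ℕ} (hp : p.Prime) : S7 p ↔ IsSquare (-7 : ZMod p) := by
  have : Fact p.Prime := ⟨hp⟩
  have : NeZero p := ⟨hp.ne_zero⟩
  constructor
  · rintro ⟨x, -, hx⟩
    refine ⟨(x : ZMod p), ?_⟩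
    have h1 : ((x * x + 7 : ℕ) : ZMod p) = 0 := (ZMod.natCast_eq_zero_iff _ _).2
      (Nat.dvd_of_mod_eq_zero hx)
    push_cast at h1
    linear_combination -h1
  · rintro ⟨y, hy⟩
    refine ⟨y.val, ZMod.val_lt y, Nat.mod_eq_zero_of_dvd ?_⟩
    rw [← ZMod.natCast_eq_zero_iff]
    push_cast
    rw [ZMod.natCast_zmod_val, ← hy]
    ring

theorem q7_iff {p : ℕ} (hp : p.Prime) : Q7 p ↔ nonfourth p = 0 := by
  have : Fact p.Prime := ⟨hp⟩
  have : NeZero p := ⟨hp.ne_zero⟩
  have h1 : nonfourth p = 0 ↔ ∃ y : ZMod p, y ^ 4 = -7 := by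
    unfold nonfourth
    split_ifs with h
    · exact ⟨fun _ => h, fun _ => rfl⟩
    · exact ⟨fun h' => absurd h' one_ne_zero, fun h' => absurd h' h⟩
  rw [h1]
  constructor
  · rintro ⟨x, -, hx⟩
    refine ⟨(x : ZMod p), ?_⟩
    have h1 : ((x * x * (x * x) + 7 : ℕ) : ZMod p) = 0 := (ZMod.natCast_eq_zero_iff _ _).2
      (Nat.dvd_of_mod_eq_zero hx)
    push_cast at h1
    linear_combination h1
  · rintro ⟨y, hy⟩
    refine ⟨y.val, ZMod.val_lt y, Nat.mod_eq_zero_of_dvd ?_⟩
    rw [← ZMod.natCast_eq_zero_iff]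
    push_cast
    rw [ZMod.natCast_zmod_val]
    linear_combination hy

theorem zmod2_eq_iff {a b : ZMod 2} : a = b ↔ (a = 0 ↔ b = 0) := by
  revert a b
  decide

/-- the conditions for the divisor `d` -/
def Ker (D d : ℕ) : Prop :=
  (d ∣ D ∧ 1 < d) ∧ (∀ p < D + 1, (p.Prime ∧ p ∣ d → S7 p)) ∧
    ∀ p < D + 1, (p.Prime ∧ p ∣ D ∧ S7 p → (¬ p ∣ d → Sq p d) ∧
      (p ∣ d → ((Q7 p → Sq p (D / d)) ∧ (Sq p (D / d) → Q7 p))))

/-- the matrix is singular -/
def Sing (D : ℕ) : Prop := ∃ d < D + 1, Ker D d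

theorem mem_split {D p : ℕ} : p ∈ split D ↔ p ∈ D.primeFactors ∧ IsSquare (-7 : ZMod p) := by
  classical
  unfold split
  rw [Finset.mem_filter]

theorem prod_primeFactors_subset {D : ℕ} {S : Finset ℕ} (hS : S ⊆ D.primeFactors) :
    (∏ a ∈ S, a).primeFactors = S := by
  exact Nat.primeFactors_prod fun p hp => Nat.prime_of_mem_primeFactors (hS hp)

theorem sing_iff {D : ℕ} (hD : Squarefree D) : (mat D).det = 0 ↔ Sing D := by
  classical
  have hD0 : D ≠ 0 := hD.ne_zero
  have hDp := Nat.prod_primeFactors_of_squarefree hD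
  -- comparison of the two conditions
  have key : ∀ S ⊆ split D, S.Nonempty → (KerS D S ↔ Ker D (∏ a ∈ S, a)) := by
    intro S hS hne
    have hS' := hS.trans (split_sub D)
    have hpf := prod_primeFactors_subset hS'
    have hd0 : ∏ a ∈ S, a ≠ 0 := Finset.prod_ne_zero_iff.2 fun a ha =>
      (Nat.prime_of_mem_primeFactors (hS' ha)).ne_zero
    have hmem : ∀ p, p ∈ S ↔ p.Prime ∧ p ∣ ∏ a ∈ S, a := by
      intro p
      rw [← Nat.mem_primeFactors_of_ne_zero hd0, hpf]
    have hmul : (∏ a ∈ D.primeFactors \ S, a) * ∏ a ∈ S, a = D := by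
      rw [Finset.prod_sdiff hS', hDp]
    have hdiv : D / (∏ a ∈ S, a) = ∏ a ∈ D.primeFactors \ S, a := by
      conv_lhs => rw [← hmul]
      exact Nat.mul_div_cancel _ (Nat.pos_of_ne_zero hd0)
    have hdvd : (∏ a ∈ S, a) ∣ D := ⟨_, by rw [mul_comm]; exact hmul.symm⟩
    have h1d : 1 < ∏ a ∈ S, a := by
      obtain ⟨p, hp⟩ := hne
      have h1 := Nat.prime_of_mem_primeFactors (hS' hp)
      exact lt_of_lt_of_le h1.one_lt (Nat.le_of_dvd (Nat.pos_of_ne_zero hd0)
        (Finset.dvd_prod_of_mem _ hp))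
    unfold KerS Ker
    rw [hdiv]
    constructor
    · intro h
      refine ⟨⟨hdvd, h1d⟩, fun p _ hp => ?_, fun p _ hp => ?_⟩
      · rw [s7_iff hp.1]
        exact (mem_split.1 (hS ((hmem p).2 hp))).2
      · have hps : p ∈ split D := mem_split.2 ⟨(Nat.mem_primeFactors_of_ne_zero hD0).2
          ⟨hp.1, hp.2.1⟩, (s7_iff hp.1).1 hp.2.2⟩
        obtain ⟨h2, h3⟩ := h p hps
        refine ⟨fun h4 => ?_, fun h4 => ?_⟩
        · rw [sq_iff hp.1]
          exact h2 fun h5 => h4 ((hmem p).1 h5).2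
        · rw [sq_iff hp.1, q7_iff hp.1, h3 ((hmem p).2 ⟨hp.1, h4⟩)]
          exact ⟨id, id⟩
    · rintro ⟨-, h1, h2⟩ p hp
      have hpD := (mem_split.1 hp).1
      have hpp := Nat.prime_of_mem_primeFactors hpD
      have hpd := Nat.dvd_of_mem_primeFactors hpD
      have hle := Nat.le_of_dvd (Nat.pos_of_ne_zero hD0) hpd
      obtain ⟨h3, h4⟩ := h2 p (by omega) ⟨hpp, hpd, (s7_iff hpp).2 (mem_split.1 hp).2⟩
      refine ⟨fun h5 => ?_, fun h5 => ?_⟩
      · rw [← sq_iff hpp]
        exact h3 fun h6 => h5 ((hmem p).2 ⟨hpp, h6⟩)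
      · rw [zmod2_eq_iff, ← sq_iff hpp, ← q7_iff hpp]
        obtain ⟨h6, h7⟩ := h4 ((hmem p).1 h5).2
        exact ⟨h6, h7⟩
  rw [det_zero_iff]
  constructor
  · rintro ⟨S, hS, hne, hK⟩
    have h1 := (key S hS hne).1 hK
    have := Nat.le_of_dvd (Nat.pos_of_ne_zero hD0) h1.1.1
    exact ⟨_, by omega, h1⟩
  · rintro ⟨d, -, hK⟩
    have hsq : Squarefree d := hD.squarefree_of_dvd hK.1.1
    have hprod := Nat.prod_primeFactors_of_squarefree hsq
    have hS : d.primeFactors ⊆ split D := by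
      intro p hp
      have h1 := Nat.prime_of_mem_primeFactors hp
      have h2 := Nat.dvd_of_mem_primeFactors hp
      have h3 := h2.trans hK.1.1
      have h4 := Nat.le_of_dvd (Nat.pos_of_ne_zero hD0) h3
      exact mem_split.2 ⟨(Nat.mem_primeFactors_of_ne_zero hD0).2 ⟨h1, h3⟩,
        (s7_iff h1).1 (hK.2.1 p (by omega) ⟨h1, h2⟩)⟩
    have hne : d.primeFactors.Nonempty := Nat.nonempty_primeFactors.2 hK.1.2
    refine ⟨d.primeFactors, hS, hne, (key _ hS hne).2 ?_⟩
    rw [hprod]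
    exact hK

end Pool.Agent.T9h77.QT
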