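import Mathlib

/-!
# A second rational point on the quadratic twist of `X_0(49)` gives infinitely many

`E_D : w² = 4 x³ - 3 D x² - 8 D² x - 4 D³ = (x - 2 D) (4 x² + 5 D x + 2 D²)`, `D` odd. Doubling a rational
point which is not `(2 D, 0)` at most twice gives a point with `x` not integral at `2`, and doubling a
point with `x` not integral at `2` makes the denominator larger. So `(2 D, 0)` and the point at infinity
are the only rational points, or there are infinitely many.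
-/

set_option autoImplicit false

namespace Pool.Agent.T9h77.QT

/-- the cubic polynomial -/
def g (D x : ℚ) : ℚ := 4 * x ^ 3 - 3 * D * x ^ 2 - 8 * D ^ 2 * x - 4 * D ^ 3

/-- the numerator of the doubling formula -/
def N (D x : ℚ) : ℚ := x ^ 4 + 4 * D ^ 2 * x ^ 2 + 8 * D ^ 3 * x + D ^ 4

theorem dbl {D x w : ℚ} (h : w ^ 2 = g D x) (hw : w ≠ 0) :
    ∃ w', w' ^ 2 = g D (N D x / w ^ 2) := by
  set μ : ℚ := (6 * x ^ 2 - 3 * D * x - 4 * D ^ 2) / w with hμ
  set x' : ℚ := N D x / w ^ 2 with hx'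
  have h2 : 2 * w * μ = 12 * x ^ 2 - 6 * D * x - 8 * D ^ 2 := by
    rw [hμ]
    field_simp
    ring
  have h3 : 4 * (2 * x + x') = μ ^ 2 + 3 * D := by
    have e : (4 * (2 * x + x') - (μ ^ 2 + 3 * D)) * w ^ 2 = 0 := by
      rw [hμ, hx']
      have e1 : (4 * (2 * x + N D x / w ^ 2) - (((6 * x ^ 2 - 3 * D * x - 4 * D ^ 2) / w) ^ 2 + 3 * D))
          * w ^ 2 = 4 * (2 * x * w ^ 2 + N D x) - ((6 * x ^ 2 - 3 * D * x - 4 * D ^ 2) ^ 2 +
          3 * D * w ^ 2) := by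
        field_simp
      rw [e1, h]
      unfold g N
      ring
    have e2 := (mul_eq_zero.1 e).resolve_right (pow_ne_zero 2 hw)
    linear_combination e2
  refine ⟨w + μ * (x' - x), ?_⟩
  unfold g at h ⊢
  linear_combination h + (x' - x) * h2 - (x' - x) ^ 2 * h3

theorem root {D x : ℚ} (hD : D ≠ 0) (h : g D x = 0) : x = 2 * D := by
  have h1 : (x - 2 * D) * ((8 * x + 5 * D) ^ 2 + 7 * D ^ 2) = 0 := by
    unfold g at h
    linear_combination 16 * h
  rcases mul_eq_zero.1 h1 with h2 | h2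
  · linarith
  · have : 0 < D ^ 2 := by positivity
    nlinarith [sq_nonneg (8 * x + 5 * D)]

theorem not_two {D x : ℚ} (hD : D ≠ 0) (h : N D x = 2 * D * g D x) : False := by
  have h1 : (x ^ 2 - 4 * D * x - 3 * D ^ 2) ^ 2 = 0 := by
    unfold N g at h
    linear_combination h
  have h2 : x ^ 2 - 4 * D * x - 3 * D ^ 2 = 0 := pow_eq_zero_iff (two_ne_zero) |>.1 h1
  have h3 : ((x - 2 * D) / D) ^ 2 = 7 := by
    rw [div_pow, div_eq_iff (pow_ne_zero 2 hD)]
    linear_combination h2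
  have h4 : Irrational (Real.sqrt ((7 : ℕ) : ℝ)) := Nat.Prime.irrational_sqrt (by norm_num)
  refine h4 ⟨|(x - 2 * D) / D|, ?_⟩
  have h5 : ((((x - 2 * D) / D : ℚ) : ℝ)) ^ 2 = 7 := by exact_mod_cast h3
  have h6 : Real.sqrt ((7 : ℕ) : ℝ) = |(((x - 2 * D) / D : ℚ) : ℝ)| := by
    rw [← Real.sqrt_sq_eq_abs, h5]
    norm_num
  rw [h6]
  push_cast
  rfl

/-! ### the norms at `2` -/

/-- the 2-adic norm -/
noncomputable def nm (x : ℚ) : ℝ := ‖(x : ℚ_[2])‖

theorem nm_mul (x y : ℚ) : nm (x * y) = nm x * nm y := by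
  unfold nm
  push_cast
  exact norm_mul _ _

theorem nm_pow (x : ℚ) (n : ℕ) : nm (x ^ n) = nm x ^ n := by
  unfold nm
  push_cast
  exact norm_pow _ _

theorem nm_div (x y : ℚ) : nm (x / y) = nm x / nm y := by
  unfold nm
  push_cast
  exact norm_div _ _

theorem nm_neg (x : ℚ) : nm (-x) = nm x := by
  unfold nm
  push_cast
  exact norm_neg _

theorem nm_nonneg (x : ℚ) : 0 ≤ nm x := norm_nonneg _

theorem nm_pos {x : ℚ} (h : x ≠ 0) : 0 < nm x := by
  unfold nm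
  rw [norm_pos_iff]
  exact_mod_cast h

theorem nm_add (x y : ℚ) : nm (x + y) ≤ max (nm x) (nm y) := by
  unfold nm
  push_cast
  exact Padic.nonarchimedean _ _

theorem nm_add_lt {x y : ℚ} {c : ℝ} (hx : nm x < c) (hy : nm y < c) : nm (x + y) < c :=
  lt_of_le_of_lt (nm_add x y) (max_lt hx hy)

theorem nm_add_le {x y : ℚ} {c : ℝ} (hx : nm x ≤ c) (hy : nm y ≤ c) : nm (x + y) ≤ c :=
  (nm_add x y).trans (max_le hx hy)

theorem nm_add_eq {x y : ℚ} (h : nm y < nm x) : nm (x + y) = nm x := by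
  unfold nm at h ⊢
  push_cast
  rw [Padic.add_eq_max_of_ne (ne_of_gt h), max_eq_left h.le]

theorem nm_int (z : ℤ) : nm z ≤ 1 := by
  unfold nm
  push_cast
  exact Padic.norm_int_le_one z

theorem nm_odd {z : ℤ} (h : Odd z) : nm z = 1 := by
  unfold nm
  push_cast
  refine le_antisymm (Padic.norm_int_le_one z) ?_
  by_contra hc
  rw [not_le, Padic.norm_intCast_lt_one_iff] at hc
  have : ¬ Even z := Int.not_even_iff_odd.2 h
  exact this (even_iff_two_dvd.2 (by exact_mod_cast hc))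

theorem nm_two : nm 2 = 1 / 2 := by
  unfold nm
  have := Padic.norm_p (p := 2)
  push_cast at this ⊢
  rw [this]
  norm_num

theorem nm_four : nm 4 = 1 / 4 := by
  rw [show (4 : ℚ) = 2 * 2 by norm_num, nm_mul, nm_two]
  norm_num

theorem nm_eight : nm 8 = 1 / 8 := by
  rw [show (8 : ℚ) = 2 * 4 by norm_num, nm_mul, nm_two, nm_four]
  norm_num

theorem nm_three : nm 3 = 1 := by
  have := nm_odd (z := 3) (by decide)
  exact_mod_cast this

/-- `x` not integral at `2` -/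
theorem grow {D : ℤ} (hD : Odd D) {x w : ℚ} (h : w ^ 2 = g D x) (hx : 1 < nm x) (hw : w ≠ 0) :
    nm x < nm (N D x / w ^ 2) := by
  have hDn := nm_odd hD
  set a := nm x with ha
  have h1 : nm (N D x) = a ^ 4 := by
    have e : N D x = x ^ 4 + (4 * (D : ℚ) ^ 2 * x ^ 2 + 8 * (D : ℚ) ^ 3 * x + (D : ℚ) ^ 4) := by
      unfold N
      ring
    have k1 : nm (x ^ 4) = a ^ 4 := by rw [nm_pow]
    rw [e, nm_add_eq, k1]
    rw [k1]
    have ha2 : a < a ^ 2 := by nlinarith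
    have ha4 : a ^ 2 < a ^ 4 := by nlinarith [sq_nonneg (a ^ 2)]
    have ha1 : 1 < a ^ 2 := by nlinarith
    refine nm_add_lt (nm_add_lt ?_ ?_) ?_
    · rw [nm_mul, nm_mul, nm_pow, nm_pow, hDn, nm_four, ← ha]
      nlinarith
    · rw [nm_mul, nm_mul, nm_pow, hDn, nm_eight, ← ha]
      nlinarith
    · rw [nm_pow, hDn]
      nlinarith
  have h2 : nm (w ^ 2) < a ^ 3 := by
    have e : w ^ 2 = 4 * x ^ 3 + -(3 * (D : ℚ) * x ^ 2) + -(8 * (D : ℚ) ^ 2 * x) +
        -(4 * (D : ℚ) ^ 3) := by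
      rw [h]
      unfold g
      ring
    have ha2 : a < a ^ 2 := by nlinarith
    have ha3 : a ^ 2 < a ^ 3 := by
      have : 0 < a ^ 2 := by positivity
      calc a ^ 2 = 1 * a ^ 2 := by ring
        _ < a * a ^ 2 := mul_lt_mul_of_pos_right hx this
        _ = a ^ 3 := by ring
    rw [e]
    refine nm_add_lt (nm_add_lt (nm_add_lt ?_ ?_) ?_) ?_
    · rw [nm_mul, nm_pow, nm_four, ← ha]
      nlinarith
    · rw [nm_neg, nm_mul, nm_mul, nm_pow, hDn, nm_three, ← ha]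
      nlinarith
    · rw [nm_neg, nm_mul, nm_mul, nm_pow, hDn, nm_eight, ← ha]
      nlinarith
    · rw [nm_neg, nm_mul, nm_pow, hDn, nm_four]
      nlinarith
  have h3 : 0 < nm (w ^ 2) := nm_pos (pow_ne_zero 2 hw)
  rw [nm_div, h1, lt_div_iff₀ h3]
  nlinarith

/-- `x` even -/
theorem even_case {D : ℤ} (hD : Odd D) {x w : ℚ} (h : w ^ 2 = g D x) (hx : nm x < 1)
    (hw : w ≠ 0) : 1 < nm (N D x / w ^ 2) := by
  have hDn := nm_odd hD
  set a := nm x with ha
  have ha0 : 0 ≤ a := nm_nonneg x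
  have hp : ∀ n : ℕ, a ^ n ≤ 1 := fun n => pow_le_one₀ ha0 hx.le
  have h1 : nm (N D x) = 1 := by
    have e : N D x = (D : ℚ) ^ 4 + (x ^ 4 + 4 * (D : ℚ) ^ 2 * x ^ 2 + 8 * (D : ℚ) ^ 3 * x) := by
      unfold N
      ring
    have k1 : nm ((D : ℚ) ^ 4) = 1 := by rw [nm_pow, hDn, one_pow]
    rw [e, nm_add_eq, k1]
    rw [k1]
    refine nm_add_lt (nm_add_lt ?_ ?_) ?_
    · rw [nm_pow, ← ha]
      have := hp 3
      calc a ^ 4 = a * a ^ 3 := by ring
        _ ≤ a * 1 := mul_le_mul_of_nonneg_left this ha0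
        _ < 1 := by linarith
    · rw [nm_mul, nm_mul, nm_pow, nm_pow, hDn, nm_four, ← ha]
      have := hp 2
      nlinarith
    · rw [nm_mul, nm_mul, nm_pow, hDn, nm_eight, ← ha]
      nlinarith
  have h2 : nm (w ^ 2) < 1 := by
    have e : w ^ 2 = 4 * x ^ 3 + -(3 * (D : ℚ) * x ^ 2) + -(8 * (D : ℚ) ^ 2 * x) +
        -(4 * (D : ℚ) ^ 3) := by
      rw [h]
      unfold g
      ring
    rw [e]
    refine nm_add_lt (nm_add_lt (nm_add_lt ?_ ?_) ?_) ?_
    · rw [nm_mul, nm_pow, nm_four, ← ha]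
      have := hp 3
      nlinarith
    · rw [nm_neg, nm_mul, nm_mul, nm_pow, hDn, nm_three, ← ha]
      nlinarith
    · rw [nm_neg, nm_mul, nm_mul, nm_pow, hDn, nm_eight, ← ha]
      nlinarith
    · rw [nm_neg, nm_mul, nm_pow, hDn, nm_four]
      norm_num
  have h3 : 0 < nm (w ^ 2) := nm_pos (pow_ne_zero 2 hw)
  rw [nm_div, h1, lt_div_iff₀ h3]
  linarith

/-- the 2-adic norm of the sum of two odd numbers -/
theorem nm_unit_add {x y : ℚ} (hx : nm x = 1) (hy : nm y = 1) : nm (x + y) < 1 := by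
  unfold nm at *
  have h1 : ‖((⟨(x : ℚ_[2]), hx.le⟩ + ⟨(y : ℚ_[2]), hy.le⟩ : ℤ_[2]))‖ < 1 := by
    rw [← PadicInt.mem_nonunits, PadicInt.mem_nonunits]
    by_contra hc
    have k : ∀ z : ℤ_[2], ‖z‖ = 1 → PadicInt.toZMod z = 1 := by
      intro z hz
      have : PadicInt.toZMod z ≠ 0 := by
        intro h0
        have h1 : z ∈ RingHom.ker (PadicInt.toZMod (p := 2)) := h0
        rw [PadicInt.ker_toZMod, IsLocalRing.mem_maximalIdeal, PadicInt.mem_nonunits] at h1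
        linarith
      generalize PadicInt.toZMod z = u at this ⊢
      revert this
      revert u
      decide
    have h2 := k ⟨(x : ℚ_[2]), hx.le⟩ hx
    have h3 := k ⟨(y : ℚ_[2]), hy.le⟩ hy
    have h4 := k _ (le_antisymm (PadicInt.norm_le_one _) (not_lt.1 hc))
    have h5 := map_add (PadicInt.toZMod (p := 2)) ⟨(x : ℚ_[2]), hx.le⟩ ⟨(y : ℚ_[2]), hy.le⟩
    rw [h2, h3, h4] at h5
    exact absurd h5 (by decide)
  have e : ((⟨(x : ℚ_[2]), hx.le⟩ + ⟨(y : ℚ_[2]), hy.le⟩ : ℤ_[2]) : ℚ_[2]) =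
      (((x + y : ℚ)) : ℚ_[2]) := by
    push_cast
    rfl
  rw [← e]
  exact h1

/-- `x` odd -/
theorem odd_case {D : ℤ} (hD : Odd D) {x w : ℚ} (h : w ^ 2 = g D x) (hx : nm x = 1) :
    nm (N D x / w ^ 2) < 1 := by
  have hDn := nm_odd hD
  have h1 : nm (N D x) < 1 := by
    have e : N D x = (x ^ 4 + (D : ℚ) ^ 4) + (4 * (D : ℚ) ^ 2 * x ^ 2 + 8 * (D : ℚ) ^ 3 * x) := by
      unfold N
      ring
    rw [e]
    refine nm_add_lt (nm_unit_add ?_ ?_) (nm_add_lt ?_ ?_)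
    · rw [nm_pow, hx, one_pow]
    · rw [nm_pow, hDn, one_pow]
    · rw [nm_mul, nm_mul, nm_pow, nm_pow, hDn, nm_four, hx]
      norm_num
    · rw [nm_mul, nm_mul, nm_pow, hDn, nm_eight, hx]
      norm_num
  have h2 : nm (w ^ 2) = 1 := by
    have e : w ^ 2 = -(3 * (D : ℚ) * x ^ 2) + (4 * x ^ 3 + -(8 * (D : ℚ) ^ 2 * x) +
        -(4 * (D : ℚ) ^ 3)) := by
      rw [h]
      unfold g
      ring
    have k : nm (-(3 * (D : ℚ) * x ^ 2)) = 1 := by
      rw [nm_neg, nm_mul, nm_mul, nm_pow, hDn, nm_three, hx]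
      norm_num
    rw [e, nm_add_eq, k]
    rw [k]
    refine nm_add_lt (nm_add_lt ?_ ?_) ?_
    · rw [nm_mul, nm_pow, nm_four, hx]
      norm_num
    · rw [nm_neg, nm_mul, nm_mul, nm_pow, hDn, nm_eight, hx]
      norm_num
    · rw [nm_neg, nm_mul, nm_pow, hDn, nm_four]
      norm_num
  rw [nm_div, h2, div_one]
  exact h1

/-- the points -/
def Pts (D : ℤ) : Set (ℚ × ℚ) := {p | p.2 ^ 2 = g D p.1}

theorem nm_two_mul (D : ℤ) : nm (2 * (D : ℚ)) < 1 := by
  rw [nm_mul, nm_two]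
  have := nm_int D
  have := nm_nonneg (D : ℚ)
  linarith

theorem infinite_of_big {D : ℤ} (hD : Odd D) {x w : ℚ} (h : w ^ 2 = g D x) (hx : 1 < nm x) :
    (Pts D).Infinite := by
  have hD0 : (D : ℚ) ≠ 0 := by
    rintro h0
    have h1 : D = 0 := by exact_mod_cast h0
    rw [h1] at hD
    exact absurd hD (by decide)
  intro hf
  have hS : ({p ∈ Pts D | 1 < nm p.1} : Set (ℚ × ℚ)).Finite := hf.subset (fun p hp => hp.1)
  obtain ⟨p, hp, hmax⟩ := Set.exists_max_image _ (fun p : ℚ × ℚ => nm p.1) hS ⟨(x, w), h, hx⟩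
  have hw : p.2 ≠ 0 := by
    intro h0
    have h1 : p.2 ^ 2 = g D p.1 := hp.1
    rw [h0] at h1
    have h2 := root hD0 (by rw [← h1]; norm_num)
    have h3 := hp.2
    rw [h2] at h3
    have := nm_two_mul D
    linarith
  obtain ⟨w', hw'⟩ := dbl hp.1 hw
  have h1 := grow hD hp.1 hp.2 hw
  have h2 := hmax (N D p.1 / p.2 ^ 2, w') ⟨hw', hp.2.trans h1⟩
  simp only at h2
  linarith

/-- **a rational point other than `(2 D, 0)` and infinity gives infinitely many** -/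
theorem infinite_of {D : ℤ} (hD : Odd D) {x w : ℚ} (h : w ^ 2 = g D x) (hx : x ≠ 2 * D) :
    (Pts D).Infinite := by
  have hD0 : (D : ℚ) ≠ 0 := by
    rintro h0
    have h1 : D = 0 := by exact_mod_cast h0
    rw [h1] at hD
    exact absurd hD (by decide)
  have hw : w ≠ 0 := by
    rintro rfl
    exact hx (root hD0 (by rw [← h]; norm_num))
  rcases lt_trichotomy (nm x) 1 with h1 | h1 | h1
  · obtain ⟨w', hw'⟩ := dbl h hw
    exact infinite_of_big hD hw' (even_case hD h h1 hw)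
  · obtain ⟨w', hw'⟩ := dbl h hw
    have h2 := odd_case hD h h1
    have hw0 : w' ≠ 0 := by
      rintro rfl
      have h3 := root hD0 (x := N D x / w ^ 2) (by rw [← hw']; norm_num)
      rw [div_eq_iff (pow_ne_zero 2 hw), h] at h3
      exact not_two hD0 h3
    obtain ⟨w'', hw''⟩ := dbl hw' hw0
    exact infinite_of_big hD hw'' (even_case hD hw' h2 hw0)
  · exact infinite_of_big hD h h1

end Pool.Agent.T9h77.QT
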