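import Pool.Agent.R395.CT.Comp
import Pool.Agent.T9h77.QT.Mat
import Pool.Agent.T9h77.QT.Pts

/-!
# The partial algorithm for the quadratic twists of `X_0(49)`
-/

set_option autoImplicit false

namespace Pool.Agent.T9h77.QT

open Pool.Agent.Helper446 Pool.Agent.W960.GA
open Pool.Agent.R395.CT (cp_dvd cp_or cp_prime ciadd cisub cimul cineg cicast)

/-- the polynomial `y² + x y - x³ + (3 j + 1) x² + 2 D² x + D³`, `D = 1 + 4 j` -/
def pol (j : ℤ) : List (List ℤ) :=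
  [[(1 + 4 * j) * ((1 + 4 * j) * (1 + 4 * j)), 0, 1], [2 * ((1 + 4 * j) * (1 + 4 * j)), 1],
    [3 * j + 1], [-1]]

theorem pol_inj {i j : ℤ} (h : pol i = pol j) : i = j := by
  unfold pol at h
  injection h with _ h
  injection h with _ h
  injection h with h _
  injection h with h _
  omega

/-- there is a proof that the curve has infinitely many rational points: a rational point which is not
`(2 D, - D)` -/
def PInf (L : List (List ℤ)) : Prop :=
  ∃ w : ℤ × (ℤ × ℤ × ℤ), L = pol w.1 ∧ ¬ w.2.2.2 = 0 ∧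
    ¬ w.2.1 = 2 * ((1 + 4 * w.1) * w.2.2.2) ∧
    w.2.2.1 * w.2.2.1 * w.2.2.2 + w.2.1 * w.2.2.1 * w.2.2.2 =
      w.2.1 * w.2.1 * w.2.1 - (3 * w.1 + 1) * (w.2.1 * w.2.1 * w.2.2.2) -
      2 * ((1 + 4 * w.1) * (1 + 4 * w.1)) * (w.2.1 * w.2.2.2 * w.2.2.2) -
      (1 + 4 * w.1) * ((1 + 4 * w.1) * (1 + 4 * w.1)) * (w.2.2.2 * w.2.2.2 * w.2.2.2)

/-- there is a proof that the curve has finitely many rational points: the matrix of the squarefree part
is not singular -/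
def PFin (L : List (List ℤ)) : Prop :=
  ∃ w : (ℕ × ℕ) × ℤ, (Adm w.1.1 ∧ ¬ Sing w.1.1) ∧ w.1.2 % 2 = 1 ∧
    ((w.1.1 * (w.1.2 * w.1.2) : ℕ) : ℤ) = 1 + 4 * w.2 ∧ L = pol w.2

section

variable {α : Type} [Primcodable α]

attribute [local fun_prop] ciadd cisub cimul cineg cicast cmod cdiv

theorem adm_iff (D : ℕ) : Adm D ↔ D ≠ 0 ∧ (∀ k < D + 1, (k.Prime → ¬ k * k ∣ D)) ∧
    ∀ p < D + 1, (p.Prime ∧ p ∣ D → p % 4 = 1) := by
  unfold Adm
  constructor
  · rintro ⟨h1, h2⟩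
    refine ⟨h1.ne_zero, fun k _ hk => Nat.squarefree_iff_prime_squarefree.1 h1 k hk,
      fun p _ hp => h2 p ?_⟩
    exact (Nat.mem_primeFactors_of_ne_zero h1.ne_zero).2 hp
  · rintro ⟨h0, h1, h2⟩
    refine ⟨Nat.squarefree_iff_prime_squarefree.2 fun k hk hd => ?_, fun p hp => ?_⟩
    · have h3 := Nat.le_of_dvd (Nat.pos_of_ne_zero h0) ((Dvd.intro k rfl).trans hd)
      exact h1 k (by omega) hk hd
    · have h3 := (Nat.mem_primeFactors_of_ne_zero h0).1 hp
      have h4 := Nat.le_of_dvd (Nat.pos_of_ne_zero h0) h3.2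
      exact h2 p (by omega) h3

theorem cp_Adm {f : α → ℕ} (hf : Computable f) : ComputablePred fun x => Adm (f x) := by
  have h : ComputablePred fun x => (¬ f x = 0) ∧ (∀ k < f x + 1, (k.Prime → ¬ k * k ∣ f x)) ∧
      ∀ p < f x + 1, (p.Prime ∧ p ∣ f x → p % 4 = 1) := by
    refine cp_and (cp_not (RE.cp_eq (by fun_prop) (by fun_prop))) (cp_and ?_ ?_)
    · refine cp_all_lt (p := fun x k => (k.Prime → ¬ k * k ∣ f x)) ?_ (by fun_prop)
      exact cp_imp (cp_prime (by fun_prop)) (cp_not (cp_dvd (by fun_prop) (by fun_prop)))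
    · refine cp_all_lt (p := fun x p => (p.Prime ∧ p ∣ f x → p % 4 = 1)) ?_ (by fun_prop)
      exact cp_imp (cp_and (cp_prime (by fun_prop)) (cp_dvd (by fun_prop) (by fun_prop)))
        (RE.cp_eq (by fun_prop) (by fun_prop))
  exact cp_of_iff h fun x => adm_iff (f x)

theorem cp_Sq {f g : α → ℕ} (hf : Computable f) (hg : Computable g) :
    ComputablePred fun x => Sq (f x) (g x) := by
  unfold Sq
  refine cp_ex_lt (p := fun x y => y * y % f x = g x % f x) ?_ (by fun_prop)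
  exact RE.cp_eq (by fun_prop) (by fun_prop)

theorem cp_S7 {f : α → ℕ} (hf : Computable f) : ComputablePred fun x => S7 (f x) := by
  unfold S7
  refine cp_ex_lt (p := fun x y => (y * y + 7) % f x = 0) ?_ (by fun_prop)
  exact RE.cp_eq (by fun_prop) (by fun_prop)

theorem cp_Q7 {f : α → ℕ} (hf : Computable f) : ComputablePred fun x => Q7 (f x) := by
  unfold Q7
  refine cp_ex_lt (p := fun x y => (y * y * (y * y) + 7) % f x = 0) ?_ (by fun_prop)
  exact RE.cp_eq (by fun_prop) (by fun_prop)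

theorem cp_Ker {f g : α → ℕ} (hf : Computable f) (hg : Computable g) :
    ComputablePred fun x => Ker (f x) (g x) := by
  unfold Ker
  refine cp_and (cp_and (cp_dvd (by fun_prop) (by fun_prop)) (RE.cp_lt (by fun_prop)
    (by fun_prop))) (cp_and ?_ ?_)
  · refine cp_all_lt (p := fun x p => (p.Prime ∧ p ∣ g x → S7 p)) ?_ (by fun_prop)
    exact cp_imp (cp_and (cp_prime (by fun_prop)) (cp_dvd (by fun_prop) (by fun_prop)))
      (cp_S7 (by fun_prop))
  · refine cp_all_lt (p := fun x p => (p.Prime ∧ p ∣ f x ∧ S7 p → (¬ p ∣ g x → Sq p (g x)) ∧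
      (p ∣ g x → ((Q7 p → Sq p (f x / g x)) ∧ (Sq p (f x / g x) → Q7 p))))) ?_ (by fun_prop)
    refine cp_imp (cp_and (cp_prime (by fun_prop)) (cp_and (cp_dvd (by fun_prop) (by fun_prop))
      (cp_S7 (by fun_prop)))) (cp_and (cp_imp (cp_not (cp_dvd (by fun_prop) (by fun_prop)))
      (cp_Sq (by fun_prop) (by fun_prop))) (cp_imp (cp_dvd (by fun_prop) (by fun_prop))
      (cp_and (cp_imp (cp_Q7 (by fun_prop)) (cp_Sq (by fun_prop) (by fun_prop)))
      (cp_imp (cp_Sq (by fun_prop) (by fun_prop)) (cp_Q7 (by fun_prop))))))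

theorem cp_Sing {f : α → ℕ} (hf : Computable f) : ComputablePred fun x => Sing (f x) := by
  unfold Sing
  refine cp_ex_lt (p := fun x d => Ker (f x) d) ?_ (by fun_prop)
  exact cp_Ker (by fun_prop) (by fun_prop)

@[local fun_prop] theorem cpol {f : α → ℤ} (hf : Computable f) :
    Computable (fun x => pol (f x)) := by
  unfold pol
  refine Computable.list_cons.comp (Computable.list_cons.comp (by fun_prop)
    (Computable.const _)) (Computable.list_cons.comp (Computable.list_cons.comp (by fun_prop)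
    (Computable.const _)) (Computable.list_cons.comp (Computable.list_cons.comp (by fun_prop)
    (Computable.const _)) (Computable.const _)))

theorem re_PInf : REPred PInf := by
  unfold PInf
  refine RE.ex (p := fun (L : List (List ℤ)) (w : ℤ × (ℤ × ℤ × ℤ)) =>
    L = pol w.1 ∧ ¬ w.2.2.2 = 0 ∧
    ¬ w.2.1 = 2 * ((1 + 4 * w.1) * w.2.2.2) ∧
    w.2.2.1 * w.2.2.1 * w.2.2.2 + w.2.1 * w.2.2.1 * w.2.2.2 =
      w.2.1 * w.2.1 * w.2.1 - (3 * w.1 + 1) * (w.2.1 * w.2.1 * w.2.2.2) -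
      2 * ((1 + 4 * w.1) * (1 + 4 * w.1)) * (w.2.1 * w.2.2.2 * w.2.2.2) -
      (1 + 4 * w.1) * ((1 + 4 * w.1) * (1 + 4 * w.1)) * (w.2.2.2 * w.2.2.2 * w.2.2.2)) ?_
  refine RE.of_comput (cp_and (RE.cp_eq (by fun_prop) (by fun_prop)) (cp_and
    (cp_not (RE.cp_eq (by fun_prop) (by fun_prop))) (cp_and
    (cp_not (RE.cp_eq (by fun_prop) (by fun_prop))) (RE.cp_eq (by fun_prop) (by fun_prop)))))

theorem re_PFin : REPred PFin := by
  unfold PFin
  refine RE.ex (p := fun (L : List (List ℤ)) (w : (ℕ × ℕ) × ℤ) =>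
    (Adm w.1.1 ∧ ¬ Sing w.1.1) ∧ w.1.2 % 2 = 1 ∧
    ((w.1.1 * (w.1.2 * w.1.2) : ℕ) : ℤ) = 1 + 4 * w.2 ∧ L = pol w.2) ?_
  refine RE.of_comput (cp_and (cp_and (cp_Adm (by fun_prop)) (cp_not (cp_Sing (by fun_prop))))
    (cp_and (RE.cp_eq (by fun_prop) (by fun_prop)) (cp_and
    (RE.cp_eq (by fun_prop) (by fun_prop)) (RE.cp_eq (by fun_prop) (by fun_prop)))))

end

/-- the partial algorithm: it halts if one of the two searches is successful -/
theorem exists_alg : ∃ φ : List (List ℤ) →. Bool, Partrec φ ∧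
    (∀ L, (φ L).Dom ↔ PInf L ∨ PFin L) ∧
    ∀ L, ∀ r ∈ φ L, (r = true ∧ PInf L) ∨ (r = false ∧ PFin L) := by
  have hr : REPred fun x : List (List ℤ) × Bool =>
      (x.2 = true ∧ PInf x.1) ∨ (x.2 = false ∧ PFin x.1) := by
    refine RE.or (RE.and (RE.eq (by fun_prop) (by fun_prop)) (RE.comp re_PInf (by fun_prop)))
      (RE.and (RE.eq (by fun_prop) (by fun_prop)) (RE.comp re_PFin (by fun_prop)))
  obtain ⟨f, hf, h1, h2⟩ := RE.uniformize
    (r := fun (L : List (List ℤ)) (b : Bool) => (b = true ∧ PInf L) ∨ (b = false ∧ PFin L)) hr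
  refine ⟨f, hf, fun L => ?_, h2⟩
  rw [h1 L]
  constructor
  · rintro ⟨b, ⟨-, h⟩ | ⟨-, h⟩⟩
    · exact Or.inl h
    · exact Or.inr h
  · rintro (h | h)
    · exact ⟨true, Or.inl ⟨rfl, h⟩⟩
    · exact ⟨false, Or.inr ⟨rfl, h⟩⟩

/-! ### soundness and completeness -/

/-- the rational zeros -/
def Sol (j : ℤ) : Set (ℚ × ℚ) := {p | p.2 ^ 2 + p.1 * p.2 = p.1 ^ 3 - (3 * j + 1) * p.1 ^ 2 -
  2 * (1 + 4 * (j : ℚ)) ^ 2 * p.1 - (1 + 4 * (j : ℚ)) ^ 3}

theorem sol_iff (j : ℤ) (x y : ℚ) :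
    (x, y) ∈ Sol j ↔ (2 * y + x) ^ 2 = g ((1 + 4 * j : ℤ) : ℚ) x := by
  show y ^ 2 + x * y = x ^ 3 - (3 * j + 1) * x ^ 2 -
    2 * (1 + 4 * (j : ℚ)) ^ 2 * x - (1 + 4 * (j : ℚ)) ^ 3 ↔ _
  unfold g
  push_cast
  constructor
  · intro h
    linear_combination 4 * h
  · intro h
    linear_combination h / 4

theorem sol_pts (j : ℤ) : (Sol j).Infinite ↔ (Pts (1 + 4 * j)).Infinite := by
  have e : Pts (1 + 4 * j) = (fun p : ℚ × ℚ => (p.1, 2 * p.2 + p.1)) '' Sol j := by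
    ext ⟨x, w⟩
    constructor
    · intro h
      have h' : w ^ 2 = g ((1 + 4 * j : ℤ) : ℚ) x := h
      refine ⟨(x, (w - x) / 2), (sol_iff j _ _).2 ?_, ?_⟩
      · rw [← h']
        ring
      · show (x, 2 * ((w - x) / 2) + x) = (x, w)
        rw [mul_div_cancel₀ _ (two_ne_zero), sub_add_cancel]
    · rintro ⟨⟨a, b⟩, h, h2⟩
      simp only [Prod.mk.injEq] at h2
      obtain ⟨rfl, rfl⟩ := h2
      exact (sol_iff j a b).1 h
  rw [e]
  symm
  refine Set.infinite_image_iff ?_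
  rintro ⟨a, b⟩ - ⟨c, d⟩ - h
  simp only [Prod.mk.injEq] at h
  obtain ⟨rfl, h⟩ := h
  exact Prod.ext rfl (by linarith)

theorem odd_D (j : ℤ) : Odd (1 + 4 * j) := ⟨2 * j, by ring⟩

theorem pInf_sound {L : List (List ℤ)} (h : PInf L) : ∃ j, L = pol j ∧ (Sol j).Infinite := by
  obtain ⟨⟨j, x, y, z⟩, h1, h2, h3, h4⟩ := h
  simp only at h1 h2 h3 h4
  refine ⟨j, h1, (sol_pts j).2 ?_⟩
  have hz : (z : ℚ) ≠ 0 := by exact_mod_cast h2
  have h5 : ((x : ℚ) / z, (y : ℚ) / z) ∈ Sol j := by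
    have h6 : (y : ℚ) * y * z + x * y * z = x * x * x - (3 * j + 1) * (x * x * z) -
      2 * ((1 + 4 * j) * (1 + 4 * j)) * (x * z * z) -
      (1 + 4 * j) * ((1 + 4 * j) * (1 + 4 * j)) * (z * z * z) := by exact_mod_cast h4
    show ((y : ℚ) / z) ^ 2 + (x : ℚ) / z * ((y : ℚ) / z) = ((x : ℚ) / z) ^ 3 -
      (3 * j + 1) * ((x : ℚ) / z) ^ 2 - 2 * (1 + 4 * (j : ℚ)) ^ 2 * ((x : ℚ) / z) -
      (1 + 4 * (j : ℚ)) ^ 3
    field_simp
    linear_combination h6
  refine infinite_of (odd_D j) ((sol_iff j _ _).1 h5) ?_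
  intro h6
  rw [div_eq_iff hz] at h6
  apply h3
  have h7 : (x : ℚ) = 2 * ((1 + 4 * j) * z) := by
    rw [h6]
    push_cast
    ring
  exact_mod_cast h7

/-- the points with `x = 2 D` -/
theorem sol_two {j : ℤ} {x y : ℚ} (h : (x, y) ∈ Sol j) (hx : x = 2 * (1 + 4 * j)) :
    y = -(1 + 4 * j) := by
  have h1 := (sol_iff j x y).1 h
  have h2 : g ((1 + 4 * j : ℤ) : ℚ) x = 0 := by
    rw [hx]
    unfold g
    push_cast
    ring
  rw [h2] at h1
  have h3 : 2 * y + x = 0 := pow_eq_zero_iff (two_ne_zero) |>.1 h1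
  linarith

theorem pInf_complete {j : ℤ} (h : (Sol j).Infinite) : PInf (pol j) := by
  have h1 : ∃ p ∈ Sol j, p ∉ ({((2 * (1 + 4 * j) : ℚ), (-(1 + 4 * j) : ℚ))} : Set (ℚ × ℚ)) := by
    by_contra hc
    push Not at hc
    exact h ((Set.finite_singleton _).subset hc)
  obtain ⟨⟨X, Y⟩, hp, hne⟩ := h1
  have hX : X ≠ 2 * (1 + 4 * j) := by
    intro hX
    apply hne
    rw [Set.mem_singleton_iff, Prod.mk.injEq]
    exact ⟨hX, sol_two hp hX⟩
  have hp' : Y ^ 2 + X * Y = X ^ 3 - (3 * j + 1) * X ^ 2 -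
    2 * (1 + 4 * (j : ℚ)) ^ 2 * X - (1 + 4 * (j : ℚ)) ^ 3 := hp
  -- common denominator
  set z : ℤ := (X.den : ℤ) * Y.den with hz
  have hz0 : z ≠ 0 := by
    rw [hz]
    exact mul_ne_zero (by exact_mod_cast X.den_nz) (by exact_mod_cast Y.den_nz)
  have hzq : (z : ℚ) ≠ 0 := by exact_mod_cast hz0
  have ex : ((X.num * Y.den : ℤ) : ℚ) = X * z := by
    have h2 : (X.num : ℚ) = X * X.den := (Rat.mul_den_eq_num X).symm
    rw [hz]
    push_cast
    rw [h2]
    ring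
  have ey : ((Y.num * X.den : ℤ) : ℚ) = Y * z := by
    have h2 : (Y.num : ℚ) = Y * Y.den := (Rat.mul_den_eq_num Y).symm
    rw [hz]
    push_cast
    rw [h2]
    ring
  refine ⟨(j, X.num * Y.den, Y.num * X.den, z), rfl, hz0, ?_, ?_⟩
  · show ¬ X.num * Y.den = 2 * ((1 + 4 * j) * z)
    intro h2
    have h3 : ((X.num * Y.den : ℤ) : ℚ) = ((2 * ((1 + 4 * j) * z) : ℤ) : ℚ) := by rw [h2]
    rw [ex] at h3
    push_cast at h3
    apply hX
    have : (X - 2 * (1 + 4 * j)) * z = 0 := by linear_combination h3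
    rcases mul_eq_zero.1 this with h4 | h4
    · linarith
    · exact absurd h4 hzq
  · show (Y.num * X.den) * (Y.num * X.den) * z + (X.num * Y.den) * (Y.num * X.den) * z =
      (X.num * Y.den) * (X.num * Y.den) * (X.num * Y.den) -
      (3 * j + 1) * ((X.num * Y.den) * (X.num * Y.den) * z) -
      2 * ((1 + 4 * j) * (1 + 4 * j)) * ((X.num * Y.den) * z * z) -
      (1 + 4 * j) * ((1 + 4 * j) * (1 + 4 * j)) * (z * z * z)
    generalize X.num * Y.den = a at ex ⊢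
    generalize Y.num * X.den = b at ey ⊢
    have key : (b : ℚ) * b * z + a * b * z = a * a * a - (3 * j + 1) * (a * a * z) -
      2 * ((1 + 4 * j) * (1 + 4 * j)) * (a * z * z) -
      (1 + 4 * j) * ((1 + 4 * j) * (1 + 4 * j)) * (z * z * z) := by
      rw [ex, ey]
      linear_combination z ^ 3 * hp'
    exact_mod_cast key

/-! ### scaling -/

/-- the twist by `D m²` is the twist by `D` -/
theorem pts_scale (D m : ℤ) (hm : m ≠ 0) :
    (Pts (D * m ^ 2)).Infinite ↔ (Pts D).Infinite := by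
  have hmq : (m : ℚ) ≠ 0 := by exact_mod_cast hm
  have e : Pts (D * m ^ 2) = (fun p : ℚ × ℚ => ((m : ℚ) ^ 2 * p.1, (m : ℚ) ^ 3 * p.2)) '' Pts D := by
    ext ⟨x, w⟩
    constructor
    · intro h
      have h' : w ^ 2 = g ((D * m ^ 2 : ℤ) : ℚ) x := h
      refine ⟨(x / (m : ℚ) ^ 2, w / (m : ℚ) ^ 3), ?_, ?_⟩
      · show (w / (m : ℚ) ^ 3) ^ 2 = g D (x / (m : ℚ) ^ 2)
        rw [div_pow, h']
        unfold g
        push_cast
        field_simp
      · show ((m : ℚ) ^ 2 * (x / (m : ℚ) ^ 2), (m : ℚ) ^ 3 * (w / (m : ℚ) ^ 3)) = (x, w)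
        rw [mul_div_cancel₀ _ (pow_ne_zero 2 hmq), mul_div_cancel₀ _ (pow_ne_zero 3 hmq)]
    · rintro ⟨⟨a, b⟩, h, h2⟩
      have h' : b ^ 2 = g D a := h
      simp only [Prod.mk.injEq] at h2
      obtain ⟨rfl, rfl⟩ := h2
      show ((m : ℚ) ^ 3 * b) ^ 2 = g ((D * m ^ 2 : ℤ) : ℚ) ((m : ℚ) ^ 2 * a)
      rw [mul_pow, h']
      unfold g
      push_cast
      ring
  rw [e]
  refine Set.infinite_image_iff ?_
  rintro ⟨a, b⟩ - ⟨c, d⟩ - h
  simp only [Prod.mk.injEq] at h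
  exact Prod.ext (mul_left_cancel₀ (pow_ne_zero 2 hmq) h.1)
    (mul_left_cancel₀ (pow_ne_zero 3 hmq) h.2)

/-- uniqueness of the squarefree part -/
theorem sqf_unique {D D' m m' : ℕ} (hD : Squarefree D) (hD' : Squarefree D') (hm : m ≠ 0)
    (hm' : m' ≠ 0) (h : D * (m * m) = D' * (m' * m')) : D = D' := by
  refine Nat.eq_of_factorization_eq hD.ne_zero hD'.ne_zero fun p => ?_
  have h2 := congrArg (fun n : ℕ => n.factorization p) h
  simp only [Nat.factorization_mul hD.ne_zero (mul_ne_zero hm hm),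
    Nat.factorization_mul hD'.ne_zero (mul_ne_zero hm' hm'), Nat.factorization_mul hm hm,
    Nat.factorization_mul hm' hm', Finsupp.add_apply] at h2
  have h3 : D.factorization p ≤ 1 := hD.natFactorization_le_one p
  have h4 : D'.factorization p ≤ 1 := hD'.natFactorization_le_one p
  omega

end Pool.Agent.T9h77.QT
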